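import Pool.Agent.MWNP.Stmts
import Pool.Agent.Helper49_MWN.N4A

/-!
# Row P3A of block MWNP (helper75)
-/

set_option autoImplicit false

namespace Pool.Agent.MWNP.H75

open Pool.Agent.Helper14_MV Pool.Agent.Helper2_MV Pool.Agent.MVO Pool.Agent.MWL Pool.Agent.MWS
  Pool.Agent.MWF Pool.Agent.MWN Pool.Agent.MWNP
open Pool.Agent.MWN.H49 (Ub Vb okU okV twU twV)

/-- row P3A -/
theorem p3a (hP : PphStmt) (hX : PcxStmt) (hO : PcoStmt) (hA : ArrStmt) (hB : PhbStmt) :
    P3aStmt := by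
  intro n β hH hI hM hD st
  by_contra h3
  have hF : ¬ Op n β Bit.F := by
    intro hF
    apply h3
    have hab : Ab n (FC.ofFIC β) 2 (wo 1 (ty (Ub st) 0)) 1 := by
      refine (FC.ofFIC β).ext (a := v3 2 0 2) (b := ad n (v3 2 0 2) 1) ?_ ?_ hF
      · intro j hj
        cases st <;> interval_cases j <;> rfl
      · intro j hj
        cases st <;> interval_cases j <;> rfl
    have := hO n β hH hI 2 (Ub st) Vb 0 1 1 (okU st) okV (twU st) twV
      (by intro j hj; cases st <;> interval_cases j <;> simp [ty, Ub, Vb])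
      (by intro j hj; cases st <;> interval_cases j <;> simp [ty, Ub, Vb])
      (Or.inl ⟨rfl, rfl⟩) (by norm_num) (by cases st <;> simp [Ub])
      (by cases st <;> decide) (by decide) hab
    cases st
    · exact this
    · exact this
  obtain ⟨hEF, hGF, -⟩ := hA n (FC.ofFIC β) (hB n β hH hI).2.2.1
  have hE : ¬ Op n β Bit.E := fun h => hF (hEF h)
  have hG : ¬ Op n β Bit.G := fun h => hF (hGF h)
  have key := hP n β hH hI hM 2 0 (cd3 Cd.one Cd.z Cd.pos) (cd3 Cd.one Cd.one Cd.z)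
    (cd3 Cd.pos Cd.z Cd.pos) (cd3 Cd.one Cd.one Cd.z) st
    (v3 2 0 2) (v3 1 0 2) (v3 1 1 0) (v3 1 1 0) (by decide +kernel) (by decide) (by decide)
    (by decide) (by decide)
    (hX n β hH hI [8, 3] 2 _ (by simp; exact hD) (by decide +kernel))
    (hX n β hH hI [8] 2 _ (by simp) (by decide +kernel))
    (hX n β hH hI [8, 3, 1, 0, 2] 2 _ (by simp; exact ⟨hD, hF, hE, hG⟩) (by decide +kernel))
    (hX n β hH hI [8] 2 _ (by simp) (by decide +kernel))
  rcases key with key | key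
  · apply h3
    cases st
    · have h : RR β [0, 1, 2, 1, 3, 0, 0] [1, 0, 2, 1, 3, 0, 0] := key
      exact (RR.refl [0]).append h
    · have h : RR β [1, 0, 2, 1, 3, 0, 0] [0, 1, 2, 1, 3, 0, 0] := key
      exact h.sub (fun c => if c = 2 then [0, 2] else [c])
  · apply h3
    cases st
    · have h : RR β [0, 0, 1, 2, 1, 3, 0, 0] [0, 1, 0, 2, 1, 3, 0, 0] := key
      exact h
    · have h : RR β [1, 0, 0, 2, 1, 3, 0, 0] [0, 1, 0, 2, 1, 3, 0, 0] := key
      exact h

end Pool.Agent.MWNP.H75
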